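import Pool.Agent.Helper34.FB.Goals
import Pool.Agent.Helper93.DA.HB
import Pool.Agent.Helper42.DA.FRE
import Pool.Agent.Helper33.DA.MIN

/-!
# Project FB, packet HB2: Hilbert-Burch for a coprime part of `f`
-/

set_option autoImplicit false

namespace Pool.Agent.Helper3.FB

open IsLocalRing Pool.Agent.Helper26.DA

universe u

/-- The radical of a coprime family is the maximal ideal. -/
theorem rad {R : Type u} [CommRing R] [IsDomain R] [UniqueFactorizationMonoid R]
    [IsNoetherianRing R] [IsLocalRing R] (t1 t2 : R) (ht : maximalIdeal R = Ideal.span {t1, t2})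
    (I : Ideal R) (hI : I ≠ ⊥) (hcop : ∀ π : R, Prime π → ¬ I ≤ Ideal.span {π}) :
    ∃ N, maximalIdeal R ^ N ≤ I := by
  classical
  apply Ideal.exists_pow_le_of_le_radical_of_fg
  · rw [Ideal.radical_eq_sInf]
    apply le_sInf
    rintro P ⟨hIP, hP⟩
    by_contra hcon
    have hPm : P < maximalIdeal R := by
      refine lt_of_le_of_ne (le_maximalIdeal hP.ne_top) ?_
      rintro rfl
      exact hcon le_rfl
    have hP0 : P ≠ ⊥ := by
      rintro rfl
      exact hI (le_bot_iff.mp hIP)
    obtain ⟨π, hπP, hπ⟩ := hP.exists_mem_prime_of_ne_bot hP0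
    have hπp : (Ideal.span {π}).IsPrime := (Ideal.span_singleton_prime hπ.ne_zero).2 hπ
    have hle : Ideal.span {π} ≤ P := by
      rw [Ideal.span_le]
      simpa using hπP
    rcases hle.lt_or_eq with hlt | heq
    · have hbot : (⊥ : Ideal R).IsPrime := Ideal.isPrime_bot
      have h0 : (⊥ : Ideal R) < Ideal.span {π} := by
        rw [bot_lt_iff_ne_bot]
        intro h
        exact hπ.ne_zero (by simpa using h)
      have h1 := Ideal.height_add_one_le_of_lt_of_isPrime h0
      have h2 := Ideal.height_add_one_le_of_lt_of_isPrime hlt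
      have h3 := Ideal.height_add_one_le_of_lt_of_isPrime hPm
      have h4 : (maximalIdeal R).height ≤ 2 := by
        have h5 : maximalIdeal R ∈ (Ideal.span (({t1, t2} : Finset R) : Set R)).minimalPrimes := by
          have : (Ideal.span (({t1, t2} : Finset R) : Set R)) = maximalIdeal R := by
            rw [ht]
            simp
          rw [this, Ideal.minimalPrimes_eq_subsingleton_self]
          rfl
        refine (Ideal.height_le_card_of_mem_minimalPrimes_span_finset h5).trans ?_
        have : ({t1, t2} : Finset R).card ≤ 2 := Finset.card_le_two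
        exact_mod_cast this
      have h6 : (3 : ℕ∞) ≤ (maximalIdeal R).height := by
        calc (3 : ℕ∞) = 0 + 1 + 1 + 1 := by norm_num
          _ ≤ (⊥ : Ideal R).height + 1 + 1 + 1 := by gcongr; exact zero_le
          _ ≤ (Ideal.span {π}).height + 1 + 1 := by gcongr
          _ ≤ P.height + 1 := by gcongr
          _ ≤ (maximalIdeal R).height := h3
      have h7 := h6.trans h4
      norm_num at h7
    · exact hcop π hπ (heq ▸ hIP)
  · exact IsNoetherian.noetherian _

theorem gHB2 : Pool.Agent.Helper34.FB.G_HB2.{u} := by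
  intro R _ _ _ _ _ t1 t2 ht n f hn hm
  have hf0 : f ≠ 0 := by
    intro h
    have h1 := hm (fun _ => 1) (by simp [h]) 0
    rw [mem_maximalIdeal, mem_nonunits_iff] at h1
    exact h1 isUnit_one
  obtain ⟨g, f', hg, hgf, hf', hcop⟩ := Pool.Agent.Helper93.DA.extract f hf0
  have hsum : ∀ c : Fin (n + 1) → R, ∑ k, c k * f k = g * ∑ k, c k * f' k := by
    intro c
    rw [Finset.mul_sum]
    apply Finset.sum_congr rfl
    intro k _
    rw [hgf k]
    ring
  have hsyz : ∀ c : Fin (n + 1) → R, ∑ k, c k * f k = 0 ↔ ∑ k, c k * f' k = 0 := by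
    intro c
    rw [hsum c, mul_eq_zero]
    constructor
    · rintro (h | h)
      · exact absurd h hg
      · exact h
    · exact fun h => Or.inr h
  obtain ⟨z, hz1, hz2⟩ := Pool.Agent.Helper42.DA.gFRE R t1 t2 ht n f' hf'
  have h3 := Pool.Agent.Helper33.DA.gMIN R n f' z hf' hz1 hz2 hcop
  have hgen : ∀ c : Fin (n + 1) → R, ∑ k, c k * f' k = 0 →
      ∃ α : Fin n → R, ∀ j, c j = ∑ k, α k * z k j := by
    intro c hc
    have h := (hz2 c).mp hc
    rw [Submodule.mem_span_range_iff_exists_fun] at h
    obtain ⟨α, hα⟩ := h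
    refine ⟨α, fun j => ?_⟩
    rw [← hα]
    simp [Finset.sum_apply]
  refine ⟨g, f', z, hgf, ?_, ?_, ?_, ?_⟩
  · intro k
    rw [hsyz, hz2]
    exact Submodule.subset_span ⟨k, rfl⟩
  · intro c hc
    exact hgen c ((hsyz c).mp hc)
  · intro j
    refine (?_ : MI n f' ≤ _) (h3 j)
    unfold MI
    rw [Ideal.span_le]
    rintro m ⟨c', l, hc', rfl⟩
    choose T hT using fun i => hgen (c' i) (hc' i)
    have hmat : (Matrix.of fun i j : Fin n => c' i (l j)) =
        (Matrix.of T) * (Matrix.of fun k b : Fin n => z k (l b)) := by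
      ext i j
      simp [Matrix.mul_apply, hT]
    rw [hmat, Matrix.det_mul]
    exact Ideal.mul_mem_left _ _ (Ideal.subset_span ⟨l, rfl⟩)
  · by_cases hgu : IsUnit g
    · right
      apply rad t1 t2 ht
      · intro h
        apply hf0
        ext k
        have : f k ∈ Ideal.span (Set.range f) := Ideal.subset_span ⟨k, rfl⟩
        rw [h] at this
        simpa using this
      · intro π hπ hle
        obtain ⟨k, hk⟩ := hcop π hπ
        apply hk
        have h1 : f k ∈ Ideal.span {π} := hle (Ideal.subset_span ⟨k, rfl⟩)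
        rw [Ideal.mem_span_singleton, hgf k] at h1
        obtain ⟨v, hv⟩ := hgu
        rw [← hv] at h1
        exact (Units.dvd_mul_left).mp h1
    · left
      rw [mem_maximalIdeal]
      exact hgu

end Pool.Agent.Helper3.FB
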